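import Pool.Agent.W223.VD.Stms
import Pool.Agent.W249.VA4
import Pool.Agent.W669.VA1a
import Pool.Agent.W669.VA1b
import Pool.Agent.W368.V.A2
import Pool.Agent.W358.VojA3
import Pool.Agent.W229.V.A1Basis

set_option autoImplicit false
set_option linter.all false

/-! # VD project: the exponent of Ellenberg and Venkatesh for subfields of `ℂ` -/

namespace Pool.Agent.W333.VD

open Module NumberField Pool.Agent.W223.VD

theorem alg_mem (ι : AlgebraicClosure ℚ →ₐ[ℚ] ℂ) {x : ℂ} (hx : IsAlgebraic ℚ x) :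
    ∃ a, ι a = x := by
  letI : Algebra (AlgebraicClosure ℚ) ℂ := ι.toRingHom.toAlgebra
  haveI : IsScalarTower ℚ (AlgebraicClosure ℚ) ℂ :=
    IsScalarTower.of_algebraMap_eq fun q => (ι.commutes q).symm
  have hi : IsIntegral (AlgebraicClosure ℚ) x := (hx.tower_top _).isIntegral
  have hq : (minpoly (AlgebraicClosure ℚ) x).leadingCoeff = 1 := minpoly.monic hi
  have h : (minpoly (AlgebraicClosure ℚ) x).degree = 1 :=
    IsAlgClosed.degree_eq_one_of_irreducible _ (minpoly.irreducible hi)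
  have h0 : Polynomial.aeval x (minpoly (AlgebraicClosure ℚ) x) = 0 := minpoly.aeval _ x
  rw [Polynomial.eq_X_add_C_of_degree_eq_one h, hq, Polynomial.C_1, one_mul, Polynomial.aeval_add,
    Polynomial.aeval_X, Polynomial.aeval_C, add_eq_zero_iff_eq_neg] at h0
  refine ⟨-(minpoly (AlgebraicClosure ℚ) x).coeff 0, ?_⟩
  rw [map_neg]
  exact h0.symm

/-- the count over the algebraic closure bounds the count in `ℂ` -/
theorem transfer (n : ℕ) (Δ : ℝ) :
    ∃ Θ : IntermediateField ℚ ℂ → IntermediateField ℚ (AlgebraicClosure ℚ),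
      Set.InjOn Θ (Flds n Δ) ∧ ∀ K ∈ Flds n Δ, ∃ _ : NumberField (Θ K),
        finrank ℚ (Θ K) = n ∧ |(NumberField.discr (Θ K) : ℝ)| ≤ Δ := by
  haveI hAC : Algebra.IsAlgebraic ℚ (AlgebraicClosure ℚ) := AlgebraicClosure.isAlgebraic ℚ
  obtain ⟨ι⟩ : Nonempty (AlgebraicClosure ℚ →ₐ[ℚ] ℂ) := ⟨IsAlgClosed.lift⟩
  have hle : ∀ K ∈ Flds n Δ, ((K.comap ι).map ι) = K := by
    rintro K ⟨hK, -, -⟩
    ext x
    constructor
    · rintro ⟨a, ha, rfl⟩
      exact ha
    · intro hx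
      have h1 : IsAlgebraic ℚ (⟨x, hx⟩ : K) := Algebra.IsAlgebraic.isAlgebraic _
      have h2 : IsAlgebraic ℚ x := h1.algebraMap (A := ℂ)
      obtain ⟨a, rfl⟩ := alg_mem ι h2
      exact ⟨a, hx, rfl⟩
  refine ⟨fun K => K.comap ι, ?_, ?_⟩
  · intro K hK K' hK' h
    have h1 := hle K hK
    have h2 := hle K' hK'
    rw [← h1, ← h2]
    exact congrArg (IntermediateField.map ι) h
  · intro K hK
    have h1 := hle K hK
    obtain ⟨hKn, hfin, hdisc⟩ := hK
    have e : (K.comap ι) ≃ₐ[ℚ] K :=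
      ((K.comap ι).equivMap ι).trans (IntermediateField.equivOfEq h1)
    haveI : NumberField (K.comap ι) := NumberField.of_ringEquiv K (K.comap ι) e.symm.toRingEquiv
    refine ⟨this, ?_, ?_⟩
    · rw [← hfin]
      exact e.toLinearEquiv.finrank_eq
    · rw [NumberField.discr_eq_discr_of_ringEquiv _ e.toRingEquiv]
      exact hdisc

theorem t : StmtEV := by
  intro η hη
  obtain ⟨r, hr⟩ := exists_nat_ge (1 / η)
  have hr1 : 1 ≤ r := by
    by_contra h
    have : r = 0 := by omega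
    subst this
    have : 0 < 1 / η := by positivity
    simp only [Nat.cast_zero] at hr
    linarith
  have hr0 : (0 : ℝ) < r := by exact_mod_cast hr1
  have hrη : 1 / (r : ℝ) ≤ η := by
    rw [div_le_iff₀ hr0]
    rw [div_le_iff₀ hη] at hr
    linarith
  obtain ⟨c₀, hc₀, hA⟩ := Pool.Agent.W249.VA4.taskA4
    (Pool.Agent.W229.V.taskA1 Pool.Agent.W669.VA1a.taskA1a Pool.Agent.W669.VA1b.taskA1b)
    Pool.Agent.W368.V.taskA2 Pool.Agent.W358.VojA3.taskA3 r hr1
  refine ⟨max c₀ 1, le_max_right _ _, fun n hn => ?_⟩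
  obtain ⟨C, hC⟩ := hA n
  refine ⟨max C 1, lt_of_lt_of_le one_pos (le_max_right _ _), fun Δ hΔ => ?_⟩
  obtain ⟨hfin, hcard⟩ := hC ℚ Δ hΔ
  obtain ⟨Θ, hinj, hmem⟩ := transfer n Δ
  have hmaps : Set.MapsTo Θ (Flds n Δ) {K : IntermediateField ℚ (AlgebraicClosure ℚ) |
      ∃ _ : NumberField K, finrank ℚ K = n ∧ |(NumberField.discr K : ℝ)| ≤ Δ} := by
    intro K hK
    exact hmem K hK
  have hF : (Flds n Δ).Finite := Set.Finite.of_injOn hmaps hinj hfin
  refine ⟨hF, ?_⟩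
  have hn1 : (1 : ℝ) ≤ n := by exact_mod_cast hn
  have hle : ((Flds n Δ).ncard : ℝ) ≤ (Set.ncard {K : IntermediateField ℚ (AlgebraicClosure ℚ) |
      ∃ _ : NumberField K, finrank ℚ K = n ∧ |(NumberField.discr K : ℝ)| ≤ Δ} : ℝ) := by
    exact_mod_cast Set.ncard_le_ncard_of_injOn Θ hmaps hinj hfin
  refine (hle.trans hcard).trans ?_
  have hexp : c₀ * (n : ℝ) ^ (1 / (r : ℝ)) ≤ max c₀ 1 * (n : ℝ) ^ η := by
    apply mul_le_mul (le_max_left _ _) (Real.rpow_le_rpow_of_exponent_le hn1 hrη)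
      (by positivity) (by positivity)
  exact mul_le_mul (le_max_left _ _) (Real.rpow_le_rpow_of_exponent_le hΔ hexp)
    (by positivity) (by positivity)

end Pool.Agent.W333.VD
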